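import Pool.Agent.MP_6a4325_al.H84.Spec3
import Pool.Agent.MP_6a4325_al.H45.Ws2

/-! Soluble-by-finite groups. -/

set_option autoImplicit false

namespace Pool.Agent.MP_6a4325_al.H22

open Pool.Agent.MP_6a4325_al.H62 Pool.Agent.MP_6a4325_al.H84 Subgroup

variable {G H Q : Type} [Group G] [Group H] [Group Q]

theorem solv_le {A B : Subgroup G} (h : A ≤ B) (hB : Group.IsSolvable B) : Group.IsSolvable A :=
  Group.isSolvable_of_isSolvable_injective (inclusion_injective h)

theorem solv_map {A : Subgroup G} (f : G →* Q) (hA : Group.IsSolvable A) :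
    Group.IsSolvable (A.map f) := Group.isSolvable_of_surjective (f.subgroupMap_surjective A)

theorem solv_ext (X : Subgroup G) (f : G →* Q) (h : Group.IsSolvable (X ⊓ f.ker : Subgroup G))
    (h' : Group.IsSolvable (X.map f)) : Group.IsSolvable X :=
  Group.isSolvable_of_ker_le_range (inclusion (inf_le_left : X ⊓ f.ker ≤ X)) (f.subgroupMap X)
    fun x hx => ⟨⟨x, x.2, congrArg Subtype.val hx⟩, rfl⟩

theorem map_inj {f : H →* G} (hf : Function.Injective f) (A : Subgroup H) :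
    Function.Injective (f.subgroupMap A) := fun _ _ e => Subtype.ext (hf (congrArg Subtype.val e))

theorem vs_inj (f : H →* G) (hf : Function.Injective f) : VS G → VS H := fun ⟨N, a, b⟩ =>
  ⟨N.comap f, finiteIndex_comap N a f, by
    have := solv_le (map_comap_le f N) b
    exact Group.isSolvable_of_isSolvable_injective (map_inj hf _)⟩

theorem vs_surj (f : G →* Q) (hf : Function.Surjective f) : VS G → VS Q := fun ⟨N, a, b⟩ =>
  ⟨N.map f, finiteIndex_map N a f hf, solv_map f b⟩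

theorem rad0 : VS G → ∃ R : Subgroup G, R.Characteristic ∧ Group.IsSolvable R ∧ R.index ≠ 0 := by
  classical
  rintro ⟨N, a, b⟩
  have h : ∃ n, ∃ R : Subgroup G, R.Normal ∧ Group.IsSolvable R ∧ R.index ≠ 0 ∧ R.index = n :=
    ⟨_, N.normalCore, inferInstance, solv_le N.normalCore_le b, FiniteIndex.index_ne_zero, rfl⟩
  obtain ⟨R, h1, h2, h3, h4⟩ := Nat.find_spec h
  refine ⟨R, characteristic_iff_map_le.2 fun φ => ?_, h2, h3⟩
  have := h1.map φ.toMonoidHom φ.surjective
  have e := relIndex_mul_index (le_sup_left : R ≤ R ⊔ R.map φ.toMonoidHom)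
  have h5 : (R ⊔ R.map φ.toMonoidHom).index ≠ 0 := fun h => h3 (by rw [← e, h, mul_zero])
  have h6 := Nat.find_min' h ⟨R ⊔ R.map φ.toMonoidHom, inferInstance, solv_ext _
    (QuotientGroup.mk' R) (solv_le (inf_le_right.trans (QuotientGroup.ker_mk' R).le) h2) (by
      rw [Subgroup.map_sup, (map_eq_bot_iff R).2 (QuotientGroup.ker_mk' R).ge, bot_sup_eq]
      exact solv_map _ (solv_map _ h2)), h5, rfl⟩
  refine le_sup_right.trans (relIndex_eq_one.1 (Nat.eq_of_mul_eq_mul_right (Nat.pos_of_ne_zero h5)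
    (e.trans ?_)))
  rw [one_mul]
  exact le_antisymm (h4 ▸ h6) (Nat.le_of_dvd (Nat.pos_of_ne_zero h3) (Dvd.intro_left _ e))

theorem rad (N : Subgroup G) (hN : N.Normal) (h : VS N) :
    ∃ R : Subgroup G, R.Normal ∧ R ≤ N ∧ Group.IsSolvable R ∧ R.relIndex N ≠ 0 := by
  obtain ⟨R, a, b, c⟩ := rad0 h
  refine ⟨R.map N.subtype, inferInstance, map_subtype_le R, solv_map _ b, ?_⟩
  rwa [relIndex, subgroupOf, comap_map_eq_self_of_injective N.subtype_injective]

theorem cen (R N : Subgroup G) (hR : R.Normal) (hN : N.Normal) (h : R.relIndex N ≠ 0) :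
    ∃ C : Subgroup G, C.Normal ∧ C.FiniteIndex ∧ ∀ g ∈ C, ∀ x ∈ N, g * x * g⁻¹ * x⁻¹ ∈ R := by
  have := hN.map (QuotientGroup.mk' R) (QuotientGroup.mk'_surjective R)
  have : Finite (N.map (QuotientGroup.mk' R)) := Nat.finite_of_card_ne_zero (by
    rwa [← relIndex_ker, QuotientGroup.ker_mk'])
  refine ⟨((MulAut.conjNormal (H := N.map (QuotientGroup.mk' R))).comp
    (QuotientGroup.mk' R)).ker, inferInstance, inferInstance, fun g hg x hx => ?_⟩
  have e := congrArg Subtype.val (DFunLike.congr_fun hg ⟨_, x, hx, rfl⟩)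
  rw [← QuotientGroup.eq_one_iff, QuotientGroup.mk_mul, QuotientGroup.mk_inv, mul_inv_eq_one]
  exact e

theorem vs_ext (N : Subgroup G) [hN : N.Normal] (h : VS N) : VS (G ⧸ N) → VS G := by
  rintro ⟨P, a, b⟩
  obtain ⟨R, r1, -, r3, r4⟩ := rad N hN h
  obtain ⟨C, -, c2, c3⟩ := cen R N r1 hN r4
  have := finiteIndex_comap P a (QuotientGroup.mk' N)
  refine ⟨C ⊓ P.comap (QuotientGroup.mk' N), inferInstance, solv_ext _ (QuotientGroup.mk' N)
    (solv_ext _ (QuotientGroup.mk' R)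
      (solv_le (inf_le_right.trans (QuotientGroup.ker_mk' R).le) r3)
      (Group.isSolvable_of_comm ?_)) (solv_le (map_le_iff_le_comap.2 inf_le_right) b)⟩
  rintro ⟨_, x, hx, rfl⟩ ⟨_, y, hy, rfl⟩
  have := (QuotientGroup.eq_one_iff _).2 (c3 x hx.1.1 y ((QuotientGroup.ker_mk' N).le hy.2))
  rw [QuotientGroup.mk_mul, QuotientGroup.mk_mul, QuotientGroup.mk_inv, QuotientGroup.mk_inv,
    mul_inv_eq_one, mul_inv_eq_iff_eq_mul] at this
  exact Subtype.ext this

theorem fg_inf {N : Subgroup G} (h : ∀ K : Subgroup N, K.FG) (K : Subgroup G) : (K ⊓ N).FG :=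
  subgroupOf_map_subtype K N ▸ H7.fg_map (h _) N.subtype

theorem fg_ext (K : Subgroup G) (f : G →* Q) (h : (K ⊓ f.ker).FG) (h' : (K.map f).FG) : K.FG := by
  obtain ⟨P, a, b⟩ := exists_fg_lift _ (f.subgroupMap_surjective K)
    (Group.fg_def.1 ((Group.fg_iff_subgroup_fg _).2 h'))
  have e : P.map K.subtype ⊔ K ⊓ f.ker = K := le_antisymm (sup_le (map_subtype_le P) inf_le_left)
    fun x hx => by
      obtain ⟨y, hy, e⟩ := b.ge (mem_top (f.subgroupMap K ⟨x, hx⟩))
      rw [← mul_inv_cancel_left y.1 x]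
      refine mul_mem (mem_sup_left ⟨y, hy, rfl⟩) (mem_sup_right ⟨K.mul_mem (K.inv_mem y.2) hx, ?_⟩)
      change f _ = 1
      rw [map_mul, map_inv, inv_mul_eq_one]
      exact congrArg Subtype.val e
  exact e ▸ (H7.fg_map a K.subtype).sup h

theorem n_inj (f : H →* G) (hf : Function.Injective f) (h : NVS G) : NVS H :=
  ⟨fun _ => fg_of_map_inj f hf (h.1 _), vs_inj f hf h.2⟩

theorem n_surj (f : G →* Q) (hf : Function.Surjective f) (h : NVS G) : NVS Q :=
  ⟨fun K => map_comap_eq_self_of_surjective hf K ▸ H7.fg_map (h.1 _) f, vs_surj f hf h.2⟩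

theorem n_fin (h : Finite G) : NVS G :=
  ⟨fun K => (Group.fg_iff_subgroup_fg K).1 inferInstance, ⊥, inferInstance, inferInstance⟩

theorem vsApi : VsApi where
  inj _ _ _ _ := vs_inj
  surj _ _ _ _ := vs_surj
  fin _ _ K hK := fun ⟨N, a, b⟩ => ⟨_, finiteIndex_map_subtype K hK N a, solv_map _ b⟩
  rad _ _ := rad
  cen _ _ := cen
  ext _ _ N _ := vs_ext N
  nInj _ _ _ _ := n_inj
  nSurj _ _ _ _ := n_surj
  nExt _ _ N _ h h' := ⟨fun K => fg_ext K (QuotientGroup.mk' N)
    ((QuotientGroup.ker_mk' N).symm ▸ fg_inf h.1 K) (h'.1 _), vs_ext N h.2 h'.2⟩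
  nFin _ _ := n_fin
  nTor _ _ h ht := by
    obtain ⟨N, a, b⟩ := h.2
    have : Finite N := H45.Ws.fin_of_solv b (n_inj _ N.subtype_injective h).1 fun g =>
      N.subtype_injective.isOfFinOrder_iff.1 (ht g)
    exact Finite.of_subgroup_quotient N
  lInj _ _ _ _ f hf h P hP := n_inj _ (map_inj hf P) (h _ (H7.fg_map hP f))
  lSurj _ _ _ _ f hf h P hP := by
    obtain ⟨P', a, rfl⟩ := exists_fg_lift f hf hP
    exact n_surj _ (f.subgroupMap_surjective P') (h _ a)
  lNoeth _ _ h P hP K hK := inf_eq_left.2 hK ▸ fg_inf (h P hP).1 K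
  lfLp _ _ h P hP := n_fin (h P hP)
  lfInj _ _ _ _ f hf h P hP := by
    have := h _ (H7.fg_map hP f)
    exact Finite.of_injective _ (map_inj hf P)
  lfd G _ h P hP := by
    obtain ⟨T, hT⟩ := H7.fg_map hP (_root_.commutator G).subtype
    have := h T fun g hg => map_subtype_le P (hT ▸ subset_closure hg)
    rw [hT] at this
    exact Finite.of_injective _ (map_inj (_root_.commutator G).subtype_injective P)

end Pool.Agent.MP_6a4325_al.H22
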